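import Pool.Agent.H73.EV.Chk

set_option autoImplicit false

/-! # The complex on 17 vertices and its strategies (helper73; found by computer search) -/

namespace Pool.Agent.H73.EV

/-- The facets, as bitmasks: the vertices 0-12 are those of the suspension of the A5-acyclic
2-complex (labelling of `Pool.Graph.R_seed8.H571R3.Defs`), 13-16 are new. -/
def fct : List ℕ := [
  10275, 10277, 10282, 10292, 10296, 10392, 10520, 10768, 12323, 12325, 12330, 12340, 12344,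
  12360, 12370, 12428, 12440, 12562, 12568, 12810, 12812, 12818, 16914, 18516, 18566, 18694,
  18706, 19462, 19465, 19466, 19473, 20564, 20760, 21002, 21004, 21513, 21521, 25609, 26768,
  26884, 26896, 27136, 27668, 28684, 28696, 28738, 28752, 28816, 28936, 28944, 29186, 29188,
  29192, 29702, 29706, 29716, 34898, 35333, 35338, 35340, 35345, 35346, 36937, 36946, 36995,
  36998, 37000, 37125, 37126, 37138, 37394, 40984, 41042, 41482, 41484, 41490, 43018, 43075,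
  43139, 43269, 43273, 45062, 45074, 45123, 45573, 45585, 49236, 49286, 49414, 49426, 51210,
  51218, 51273, 51280, 51330, 51345, 53328, 53393, 53513, 53520, 53761, 57347, 57350, 57354,
  57605, 57609, 67660, 67724, 69708, 73868, 75844, 75912, 84036, 84100, 84104, 86028, 86084,
  92164, 92288, 100364, 102472, 108548, 108552, 108608, 108672, 110656, 114756, 114820, 116808,
  116864, 118792, 118848, 118912, 122892]

/-- Closure under removal of elements. -/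
def clos (x : ℕ) : ℕ → ℕ
  | 0 => x
  | v + 1 => clos (x ||| ((x >>> 2 ^ v) &&& msk 17 v)) v

/-- The bitmap of the complex. -/
def big : ℕ := clos (fct.foldr (fun m x => x ||| 2 ^ m) 0) 17

/-- strategy: link of 13 after removal of 14, 15, 16. -/
def tr13 : Tr :=
  .q 6 (.q 2 (.l 11) (.q 3 (.l 12) (.l 1))) (.q 7 (.q 0 (.l 1) (.q 1 (.l 11) (.l 3))) (.q 8 (.q
  1 (.l 4) (.q 2 (.l 0) (.l 3))) (.q 9 (.q 11 (.l 4) (.l 12)) (.q 0 (.q 4 (.l 12) (.q 10 (.l 3)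
  (.q 3 (.l 11) (.l 5)))) (.q 11 (.q 1 (.l 3) (.l 4)) (.l 12))))))

/-- strategy: link of 14 after removal of 15, 16. -/
def tr14 : Tr :=
  .q 6 (.q 0 (.l 3) (.q 3 (.l 11) (.q 1 (.l 12) (.l 4)))) (.q 7 (.q 3 (.l 11) (.q 1 (.l 2) (.q
  2 (.l 11) (.l 4)))) (.q 9 (.q 4 (.l 1) (.q 11 (.l 13) (.l 12))) (.q 0 (.q 1 (.l 13) (.q 2 (.l
  8) (.q 4 (.l 10) (.l 3)))) (.q 3 (.q 11 (.l 1) (.l 12)) (.q 12 (.l 13) (.q 8 (.l 11) (.q 4
  (.l 11) (.l 2))))))))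

/-- strategy: link of 15 after removal of 16. -/
def tr15 : Tr :=
  .q 7 (.q 3 (.l 12) (.q 2 (.l 1) (.q 12 (.l 0) (.l 11)))) (.q 6 (.q 2 (.l 4) (.q 3 (.l 0) (.q
  14 (.q 0 (.l 11) (.l 4)) (.l 1)))) (.q 11 (.q 2 (.q 3 (.l 9) (.l 0)) (.q 9 (.q 0 (.l 4) (.l
  1)) (.q 4 (.l 14) (.q 14 (.l 3) (.l 13))))) (.q 9 (.q 3 (.l 13) (.q 1 (.l 4) (.l 0))) (.q 4
  (.q 2 (.l 14) (.q 3 (.l 13) (.q 0 (.l 12) (.q 13 (.l 1) (.l 8))))) (.q 3 (.l 14) (.q 1 (.q 0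
  (.l 13) (.l 2)) (.l 0)))))))

/-- strategy: link of 16. -/
def tr16 : Tr :=
  .q 13 (.q 12 (.l 6) (.q 6 (.l 11) (.q 7 (.q 2 (.l 3) (.l 11)) (.q 3 (.l 15) (.l 2))))) (.q 7
  (.q 3 (.l 11) (.l 14)) (.q 11 (.q 14 (.l 6) (.l 3)) (.q 2 (.q 15 (.l 14) (.l 12)) (.l 15))))

/-- strategy: the complex itself. -/
def trM : Tr :=
  .q 5 (.l 13) (.q 10 (.l 14) (.q 0 (.l 15) (.q 9 (.q 11 (.q 14 (.l 13) (.q 13 (.l 4) (.l 15)))
  (.q 14 (.q 4 (.l 1) (.l 12)) (.q 2 (.l 13) (.q 3 (.l 1) (.l 4))))) (.q 8 (.q 2 (.q 12 (.l 1)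
  (.q 1 (.l 14) (.l 13))) (.q 1 (.l 4) (.q 11 (.l 13) (.q 15 (.l 14) (.l 12))))) (.q 4 (.q 3
  (.l 13) (.q 7 (.l 14) (.q 2 (.l 14) (.q 11 (.q 13 (.l 14) (.l 15)) (.q 14 (.q 1 (.l 15) (.l
  6)) (.l 1)))))) (.q 1 (.q 6 (.l 13) (.q 12 (.q 3 (.l 13) (.l 2)) (.q 2 (.l 14) (.l 15)))) (.q
  11 (.l 16) (.q 6 (.q 2 (.l 16) (.q 13 (.l 12) (.l 15))) (.q 3 (.q 7 (.q 14 (.l 16) (.q 15 (.l
  12) (.l 2))) (.l 14)) (.q 12 (.q 16 (.q 2 (.l 14) (.l 15)) (.q 14 (.q 2 (.l 13) (.l 7)) (.l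
  2))) (.l 16)))))))))))

end Pool.Agent.H73.EV
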