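import Pool.Agent.H73.EV.Mf
import Pool.Agent.H73.EV.Red

set_option autoImplicit false

/-! # Gluing 120 copies of the complex on 17 vertices along its 13 old vertices (helper73) -/

namespace Pool.Agent.H73.EV

open Set

section generic

variable {V I : Type} (typ : V → I) (S : Set V → Prop)

/-- In a dead state every unqueried vertex is irrelevant. -/
theorem dead_leaf (T N : Set V) (r u : V) (hrT : r ∉ T) (hrN : r ∉ N) (hu : u ∈ N)
    (hur : typ u = typ r) (hd : ∀ X : Set V, T ⊆ X → Disjoint X N → ¬ S X) : W1 typ S T N := by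
  refine W1.leaf T N r hrT hrN u hu hur (fun X hTX hXN => ?_)
  have h1 : ¬ S (insert r X) := by
    refine hd _ (hTX.trans (subset_insert _ _)) ?_
    rw [Set.disjoint_left]
    rintro x (hx | hx)
    · rw [hx]; exact hrN
    · exact Set.disjoint_left.1 hXN hx
  have h2 : ¬ S (X \ {r}) := by
    refine hd _ (fun x hx => ⟨hTX hx, fun h => hrT (h ▸ hx)⟩) ?_
    exact Set.disjoint_of_subset_left sdiff_subset hXN
  exact ⟨fun h => absurd h h1, fun h => absurd h h2⟩

/-- A leaf `w` whose type has not been hit yet: query the other vertices of its type; if all are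
present the state is dead and another unqueried vertex `r` is irrelevant. -/
theorem fiber_leaf [Finite V] (hdown : ∀ A B : Set V, A ⊆ B → S B → S A) (w r u0 : V)
    (hrw : typ r ≠ typ w) (hfib : ¬ S {v | typ v = typ w}) (hu0 : typ u0 = typ r) :
    ∀ (n : ℕ) (T N : Set V), ({v | typ v = typ w ∧ v ≠ w} \ (T ∪ N)).ncard = n →
    w ∉ T → w ∉ N → r ∉ T → r ∉ N → u0 ∈ N →
    (∀ X : Set V, T ⊆ X → Disjoint X N → (S (insert w X) ↔ S (X \ {w}))) → W1 typ S T N := by
  intro n
  induction n with
  | zero =>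
    intro T N hn hwT hwN hrT hrN hu hirr
    by_cases h : ∃ u ∈ N, typ u = typ w
    · obtain ⟨u, hu1, hu2⟩ := h
      exact W1.leaf T N w hwT hwN u hu1 hu2 hirr
    push Not at h
    rw [Set.ncard_eq_zero (Set.toFinite _)] at hn
    have hsub : {v | typ v = typ w} ⊆ insert w T := by
      intro v hv
      by_cases hvw : v = w
      · exact Or.inl hvw
      · right
        by_contra hvT
        have : v ∈ ({v | typ v = typ w ∧ v ≠ w} \ (T ∪ N)) :=
          ⟨⟨hv, hvw⟩, fun h2 => h2.elim hvT (fun h3 => h v h3 hv)⟩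
        rw [hn] at this
        exact this
    refine dead_leaf typ S T N r u0 hrT hrN hu hu0 (fun X hTX hXN hSX => ?_)
    by_cases hwX : w ∈ X
    · exact hfib (hdown _ _ (hsub.trans (Set.insert_subset hwX hTX)) hSX)
    · have := hirr X hTX hXN
      rw [Set.sdiff_singleton_eq_self hwX] at this
      exact hfib (hdown _ _ (hsub.trans (Set.insert_subset_insert hTX)) (this.2 hSX))
  | succ n ih =>
    intro T N hn hwT hwN hrT hrN hu hirr
    have hne : ({v | typ v = typ w ∧ v ≠ w} \ (T ∪ N)).Nonempty := by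
      rw [← Set.ncard_pos (Set.toFinite _)]; omega
    obtain ⟨v, ⟨hvt, hvw⟩, hvTN⟩ := hne
    have hvT : v ∉ T := fun h => hvTN (Or.inl h)
    have hvN : v ∉ N := fun h => hvTN (Or.inr h)
    refine W1.query T N v hvT hvN ?_ ?_
    · apply ih
      · have e : {v | typ v = typ w ∧ v ≠ w} \ (insert v T ∪ N) =
            ({v | typ v = typ w ∧ v ≠ w} \ (T ∪ N)) \ {v} := by
          ext y; simp only [mem_sdiff, mem_union, mem_insert_iff, mem_singleton_iff]; tauto
        rw [e, Set.ncard_sdiff_singleton_of_mem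
          (show v ∈ {v | typ v = typ w ∧ v ≠ w} \ (T ∪ N) from ⟨⟨hvt, hvw⟩, hvTN⟩), hn]
        rfl
      · rintro (h | h)
        · exact hvw h.symm
        · exact hwT h
      · exact hwN
      · rintro (h | h)
        · exact hrw (h ▸ hvt)
        · exact hrT h
      · exact hrN
      · exact hu
      · intro X hTX hXN
        exact hirr X ((subset_insert _ _).trans hTX) hXN
    · refine W1.leaf T _ w hwT ?_ v (Or.inl rfl) hvt (fun X hTX hXN => ?_)
      · rintro (h | h)
        · exact hvw h.symm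
        · exact hwN h
      · exact hirr X hTX (Set.disjoint_of_subset_right (subset_insert _ _) hXN)

end generic

/-- The vertices: 13 old vertices and 4 new ones for each of the 120 group elements. -/
abbrev VV : Type := Fin 13 ⊕ (Fin 120 × Fin 4)

/-- The embedding of the copy `g`. -/
def emb (g : Fin 120) (i : Fin 17) : VV :=
  if h : i.val < 13 then Sum.inl (pm g ⟨i.val, h⟩) else Sum.inr (g, ⟨i.val - 13, by omega⟩)

theorem emb_old (g : Fin 120) (i : Fin 17) (h : i.val < 13) :
    emb g i = Sum.inl (pm g ⟨i.val, h⟩) := dif_pos h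

theorem emb_new (g : Fin 120) (i : Fin 17) (h : ¬ i.val < 13) :
    emb g i = Sum.inr (g, ⟨i.val - 13, by omega⟩) := dif_neg h

theorem emb_inj (g : Fin 120) : Function.Injective (emb g) := by
  intro i j h
  by_cases hi : i.val < 13 <;> by_cases hj : j.val < 13
  · rw [emb_old g i hi, emb_old g j hj] at h
    have h2 := congrArg Fin.val (pm_inj g (Sum.inl_injective h))
    exact Fin.ext h2
  · rw [emb_old g i hi, emb_new g j hj] at h
    exact absurd h (by simp)
  · rw [emb_new g i hi, emb_old g j hj] at h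
    exact absurd h (by simp)
  · rw [emb_new g i hi, emb_new g j hj] at h
    have h1 := congrArg (fun p => p.2.val) (Sum.inr_injective h)
    simp only at h1
    exact Fin.ext (by omega)

theorem emb_inr {g i : Fin 120} {j : Fin 4} {w : Fin 17} (h : emb g w = Sum.inr (i, j)) :
    i = g ∧ w.val = 13 + j.val := by
  by_cases hw : w.val < 13
  · rw [emb_old g w hw] at h
    exact absurd h (by simp)
  · rw [emb_new g w hw] at h
    have h1 := Sum.inr_injective h
    have h2 := congrArg Prod.fst h1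
    have h3 := congrArg (fun p => p.2.val) h1
    simp only at h2 h3
    exact ⟨h2.symm, by omega⟩

theorem emb_z (g : Fin 120) (j : Fin 4) (h : 13 + j.val < 17) :
    emb g ⟨13 + j.val, h⟩ = Sum.inr (g, j) := by
  rw [emb_new g _ (by simp)]
  congr 2
  exact Fin.ext (by simp)

/-- The glued complex. -/
def SS (X : Set VV) : Prop := ∃ g, (∀ i j, Sum.inr (i, j) ∈ X → i = g) ∧ MM (emb g ⁻¹' X)

/-- Types. -/
def tV : VV → ℕ
  | Sum.inl x => t0 x
  | Sum.inr p => 3 + p.2.val

theorem SS_down (A B : Set VV) (hAB : A ⊆ B) (h : SS B) : SS A := by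
  obtain ⟨g, h1, h2⟩ := h
  exact ⟨g, fun i j hij => h1 i j (hAB hij), MM_down _ _ (Set.preimage_mono hAB) h2⟩

theorem SS_empty : SS ∅ := ⟨0, fun _ _ h => absurd h (Set.notMem_empty _), by
  rw [Set.preimage_empty]; exact MM_empty⟩

theorem SS_two {g g' : Fin 120} {j j' : Fin 4} (hg : g ≠ g') (X : Set VV)
    (h1 : Sum.inr (g, j) ∈ X) (h2 : Sum.inr (g', j') ∈ X) : ¬ SS X := by
  rintro ⟨g0, h, _⟩
  exact hg ((h _ _ h1).trans (h _ _ h2).symm)

theorem pre_old (g : Fin 120) (X : Set VV) (h : ∀ j, Sum.inr (g, j) ∉ X) :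
    emb g ⁻¹' X = old (pm g ⁻¹' (Sum.inl ⁻¹' X)) := by
  ext i
  constructor
  · intro hi
    have hi' : emb g i ∈ X := hi
    by_cases hi13 : i.val < 13
    · rw [emb_old g i hi13] at hi'
      exact ⟨hi13, hi'⟩
    · rw [emb_new g i hi13] at hi'
      exact absurd hi' (h _)
  · rintro ⟨h1, h2⟩
    show emb g i ∈ X
    rw [emb_old g i h1]
    exact h2

theorem t0_lt (x : Fin 13) : t0 x < 3 := by unfold t0; split_ifs <;> norm_num

theorem SS_fib (x : Fin 13) : ¬ SS {v | tV v = tV (Sum.inl x)} := by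
  rintro ⟨g, _, h⟩
  rw [pre_old g _ (by
    intro j hj
    have h1 : 3 + j.val = t0 x := hj
    have := t0_lt x
    omega), MM_pm g] at h
  exact MM_fib x h

theorem SS_iff {g : Fin 120} {j : Fin 4} {Y : Set VV} (h : Sum.inr (g, j) ∈ Y) :
    SS Y ↔ (∀ i j', Sum.inr (i, j') ∈ Y → i = g) ∧ MM (emb g ⁻¹' Y) := by
  constructor
  · rintro ⟨g0, h1, h2⟩
    have := h1 g j h
    subst this
    exact ⟨h1, h2⟩
  · exact fun h => ⟨g, h⟩

theorem SS_iff0 {Y : Set VV} (h : ∀ g j, g ≠ 0 → Sum.inr (g, j) ∉ Y) :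
    SS Y ↔ MM (emb 0 ⁻¹' Y) := by
  constructor
  · rintro ⟨g, h1, h2⟩
    by_cases hg : g = 0
    · rw [← hg]; exact h2
    · have h3 : ∀ i j, Sum.inr (i, j) ∉ Y := by
        intro i j hij
        have := h1 i j hij
        exact h g j hg (this ▸ hij)
      rw [pre_old g Y (h3 g), MM_pm g] at h2
      rw [pre_old 0 Y (h3 0), MM_pm 0]
      exact h2
  · intro h1
    refine ⟨0, fun i j hij => ?_, h1⟩
    by_contra hi
    exact h i j hi hij

theorem pre_insert (g : Fin 120) (w : Fin 17) (X : Set VV) :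
    emb g ⁻¹' (insert (emb g w) X) = insert w (emb g ⁻¹' X) := by
  ext i
  simp only [mem_preimage, mem_insert_iff]
  constructor
  · rintro (h | h)
    · exact Or.inl (emb_inj g h)
    · exact Or.inr h
  · rintro (h | h)
    · exact Or.inl (by rw [h])
    · exact Or.inr h

theorem pre_diff (g : Fin 120) (w : Fin 17) (X : Set VV) :
    emb g ⁻¹' (X \ {emb g w}) = (emb g ⁻¹' X) \ {w} := by
  ext i
  simp only [mem_preimage, mem_sdiff, mem_singleton_iff]
  constructor
  · rintro ⟨h1, h2⟩
    exact ⟨h1, fun h => h2 (by rw [h])⟩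
  · rintro ⟨h1, h2⟩
    exact ⟨h1, fun h => h2 (emb_inj g h)⟩

/-- Playing the strategy of a link in the copy `g`. -/
theorem play_link (g : Fin 120) (hg : g ≠ 0) {T0 N0 : Set (Fin 17)}
    (h : WM (fun _ _ _ => True) MM T0 N0) : ∀ T N : Set VV, emb g ⁻¹' T = T0 →
    emb g ⁻¹' N = N0 → (∃ j, Sum.inr (g, j) ∈ T) → Sum.inr (0, 3) ∉ T → Sum.inr (0, 3) ∉ N →
    (∀ j, ∃ g', Sum.inr (g', j) ∈ N) → W1 tV SS T N := by
  induction h with
  | leaf T0 N0 w hT hN _ h =>
    intro T N hT0 hN0 hj hrT hrN hhit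
    obtain ⟨j, hj⟩ := hj
    have hwT : emb g w ∉ T := fun h => hT (by rw [← hT0]; exact h)
    have hwN : emb g w ∉ N := fun h => hN (by rw [← hN0]; exact h)
    have hne : Sum.inr (g, j) ≠ emb g w := fun e => hwT (e ▸ hj)
    have irr : ∀ X : Set VV, T ⊆ X → Disjoint X N →
        (SS (insert (emb g w) X) ↔ SS (X \ {emb g w})) := by
      intro X hTX hXN
      rw [SS_iff (j := j) (show Sum.inr (g, j) ∈ insert (emb g w) X from Or.inr (hTX hj)),
        SS_iff (j := j) (show Sum.inr (g, j) ∈ X \ {emb g w} from ⟨hTX hj, hne⟩),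
        pre_insert, pre_diff]
      have h1 := h (emb g ⁻¹' X) (by rw [← hT0]; exact Set.preimage_mono hTX) (by
        rw [← hN0]; exact Disjoint.preimage _ hXN)
      rw [h1]
      refine and_congr_left fun _ => ?_
      constructor
      · intro h2 i j' hij
        exact h2 i j' (Or.inr hij.1)
      · rintro h2 i j' (hij | hij)
        · exact (emb_inr hij.symm).1
        · by_cases he : Sum.inr (i, j') = emb g w
          · exact (emb_inr he.symm).1
          · exact h2 i j' ⟨hij, he⟩
    by_cases hw : w.val < 13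
    · obtain ⟨g', hg'⟩ := hhit 3
      have hwe := emb_old g w hw
      refine fiber_leaf tV SS SS_down (emb g w) (Sum.inr (0, 3)) (Sum.inr (g', 3)) ?_ ?_ rfl
        _ T N rfl hwT hwN hrT hrN hg' irr
      · rw [hwe]
        show 3 + (3 : Fin 4).val ≠ t0 _
        have := t0_lt (pm g ⟨w.val, hw⟩)
        omega
      · rw [hwe]
        exact SS_fib _
    · have hwe := emb_new g w hw
      obtain ⟨g', hg'⟩ := hhit ⟨w.val - 13, by omega⟩
      refine W1.leaf T N (emb g w) hwT hwN _ hg' ?_ irr
      rw [hwe]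
      rfl
  | query T0 N0 v hT hN _ _ ih1 ih2 =>
    intro T N hT0 hN0 hj hrT hrN hhit
    have hvT : emb g v ∉ T := fun h => hT (by rw [← hT0]; exact h)
    have hvN : emb g v ∉ N := fun h => hN (by rw [← hN0]; exact h)
    have hr0 : Sum.inr (0, 3) ≠ emb g v := fun e => hg (emb_inr e.symm).1.symm
    refine W1.query T N (emb g v) hvT hvN ?_ ?_
    · refine ih1 _ _ (by rw [pre_insert, hT0]) hN0 ?_ ?_ hrN hhit
      · obtain ⟨j, hj⟩ := hj
        exact ⟨j, Or.inr hj⟩
      · rintro (h | h)
        · exact hr0 h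
        · exact hrT h
    · refine ih2 _ _ hT0 (by rw [pre_insert, hN0]) hj hrT ?_ ?_
      · rintro (h | h)
        · exact hr0 h
        · exact hrN h
      · intro j
        obtain ⟨g', hg'⟩ := hhit j
        exact ⟨g', Or.inr hg'⟩

/-- Playing the strategy of the complex in the copy `0` when the other copies are absent. -/
theorem play_final {T0 N0 : Set (Fin 17)} (h : WM Qf MM T0 N0) : ∀ T N : Set VV,
    emb 0 ⁻¹' T = T0 → emb 0 ⁻¹' N = N0 → (∀ g j, g ≠ 0 → Sum.inr (g, j) ∈ N) →
    W1 tV SS T N := by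
  induction h with
  | leaf T0 N0 w hT hN hQ h =>
    intro T N hT0 hN0 hall
    have hwT : emb 0 w ∉ T := fun h => hT (by rw [← hT0]; exact h)
    have hwN : emb 0 w ∉ N := fun h => hN (by rw [← hN0]; exact h)
    have irr : ∀ X : Set VV, T ⊆ X → Disjoint X N →
        (SS (insert (emb 0 w) X) ↔ SS (X \ {emb 0 w})) := by
      intro X hTX hXN
      have hX : ∀ g j, g ≠ 0 → Sum.inr (g, j) ∉ X := fun g j hg hX =>
        Set.disjoint_left.1 hXN hX (hall g j hg)
      rw [SS_iff0 (Y := insert (emb 0 w) X) (by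
          rintro g j hg0 (hij | hij)
          · exact hg0 (emb_inr hij.symm).1
          · exact hX g j hg0 hij),
        SS_iff0 (Y := X \ {emb 0 w}) (fun g j hg0 hij => hX g j hg0 hij.1), pre_insert, pre_diff]
      exact h (emb 0 ⁻¹' X) (by rw [← hT0]; exact Set.preimage_mono hTX) (by
        rw [← hN0]; exact Disjoint.preimage _ hXN)
    by_cases hw : w.val < 13
    · have hwe := emb_old 0 w hw
      rw [pm_zero] at hwe
      rcases hQ with h1 | ⟨u, hu, hu13, hut⟩ | ⟨z, hz, hzT, hzN⟩
      · omega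
      · refine W1.leaf T N (emb 0 w) hwT hwN (emb 0 u) (by rw [← hN0] at hu; exact hu) ?_ irr
        rw [hwe, emb_old 0 u hu13, pm_zero]
        exact hut
      · have hze := emb_new 0 z (by omega)
        refine fiber_leaf tV SS SS_down (emb 0 w) (emb 0 z)
          (Sum.inr (1, ⟨z.val - 13, by omega⟩)) ?_ ?_ ?_
          _ T N rfl hwT hwN (fun h => hzT (by rw [← hT0]; exact h))
          (fun h => hzN (by rw [← hN0]; exact h)) (hall _ _ (by decide)) irr
        · rw [hwe, hze]
          show 3 + (z.val - 13) ≠ t0 _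
          have := t0_lt ⟨w.val, hw⟩
          omega
        · rw [hwe]
          exact SS_fib _
        · rw [hze]; rfl
    · have hwe := emb_new 0 w hw
      refine W1.leaf T N (emb 0 w) hwT hwN (Sum.inr (1, ⟨w.val - 13, by omega⟩))
        (hall _ _ (by decide)) ?_ irr
      rw [hwe]
      rfl
  | query T0 N0 v hT hN _ _ ih1 ih2 =>
    intro T N hT0 hN0 hall
    have hvT : emb 0 v ∉ T := fun h => hT (by rw [← hT0]; exact h)
    have hvN : emb 0 v ∉ N := fun h => hN (by rw [← hN0]; exact h)
    refine W1.query T N (emb 0 v) hvT hvN ?_ ?_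
    · exact ih1 _ _ (by rw [pre_insert, hT0]) hN0 hall
    · exact ih2 _ _ hT0 (by rw [pre_insert, hN0]) (fun g j hg => Or.inr (hall g j hg))

theorem pre_skip (g : Fin 120) (hg : g ≠ 0) (j : Fin 4) (N : Set VV) :
    emb g ⁻¹' (insert (Sum.inr (0, j)) N) = emb g ⁻¹' N := by
  ext i
  simp only [mem_preimage, mem_insert_iff]
  constructor
  · rintro (h | h)
    · exact absurd (emb_inr h).1.symm hg
    · exact h
  · exact Or.inr

/-- The branch in which a new vertex of a copy `g ≠ 0` is present. -/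
theorem branch (g : Fin 120) (hg : g ≠ 0) (j : Fin 4) (N : Set VV)
    (hN : emb g ⁻¹' N = {i : Fin 17 | 13 + j.val < i.val}) (g' : Fin 120)
    (hg' : Sum.inr (g', 3) ∈ N) (h0 : ∀ j, Sum.inr (0, j) ∉ N) :
    W1 tV SS {Sum.inr (g, j)} N := by
  have step : ∀ (j1 : Fin 4) (N : Set VV), j1 ≠ 3 → Sum.inr (0, j1) ∉ N → Sum.inr (0, 3) ∉ N →
      Sum.inr (g', 3) ∈ N → W1 tV SS {Sum.inr (g, j)} (insert (Sum.inr (0, j1)) N) →
      W1 tV SS {Sum.inr (g, j)} N := by
    intro j1 N hj1 h1 h2 h3 hw
    have hTn : ∀ j1, (Sum.inr (0, j1) : VV) ∉ ({Sum.inr (g, j)} : Set VV) := by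
      intro j1 h
      have := congrArg Prod.fst (Sum.inr_injective h)
      exact hg this.symm
    refine W1.query _ _ (Sum.inr (0, j1)) (hTn j1) h1 ?_ hw
    refine dead_leaf tV SS _ _ (Sum.inr (0, 3)) (Sum.inr (g', 3)) ?_ h2 h3 rfl ?_
    · rintro (h | h)
      · have := congrArg Prod.snd (Sum.inr_injective h)
        exact hj1 this.symm
      · exact hTn 3 h
    · intro X hTX _
      exact SS_two hg X (hTX (Or.inr rfl)) (hTX (Or.inl rfl))
  have hne : ∀ j1 j2 : Fin 4, j1 ≠ j2 → (Sum.inr (0, j1) : VV) ≠ Sum.inr (0, j2) := by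
    intro j1 j2 h12 h
    exact h12 (congrArg Prod.snd (Sum.inr_injective h))
  apply step 0 N (by decide) (h0 0) (h0 3) hg'
  apply step 1 _ (by decide) ?_ ?_ (Or.inr hg')
  apply step 2 _ (by decide) ?_ ?_ (Or.inr (Or.inr hg'))
  · refine play_link g hg (wm_z j) _ _ ?_ ?_ ⟨j, rfl⟩ ?_ ?_ ?_
    · ext i
      simp only [mem_preimage, mem_singleton_iff]
      constructor
      · intro h
        exact Fin.ext (emb_inr h).2
      · intro h
        rw [h, emb_z]
    · rw [pre_skip g hg, pre_skip g hg, pre_skip g hg, hN]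
    · intro h
      exact hg (congrArg Prod.fst (Sum.inr_injective h)).symm
    · rintro (h | h | h | h)
      · exact hne _ _ (by decide) h
      · exact hne _ _ (by decide) h
      · exact hne _ _ (by decide) h
      · exact h0 3 h
    · intro j'
      fin_cases j'
      · exact ⟨0, Or.inr (Or.inr (Or.inl rfl))⟩
      · exact ⟨0, Or.inr (Or.inl rfl)⟩
      · exact ⟨0, Or.inl rfl⟩
      · exact ⟨g', Or.inr (Or.inr (Or.inr hg'))⟩
  · rintro (h | h | h)
    · exact hne _ _ (by decide) h
    · exact hne _ _ (by decide) h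
    · exact h0 2 h
  · rintro (h | h | h)
    · exact hne _ _ (by decide) h
    · exact hne _ _ (by decide) h
    · exact h0 3 h
  · rintro (h | h)
    · exact hne _ _ (by decide) h
    · exact h0 1 h
  · rintro (h | h)
    · exact hne _ _ (by decide) h
    · exact h0 3 h

theorem stage (g1 : Fin 120) : ∀ (n : ℕ) (D : Set (Fin 120 × Fin 4)),
    ({p | p.1 ≠ 0} \ D).ncard = n → (∀ p ∈ D, p.1 ≠ 0) →
    (∀ g j, (g, j) ∈ D → ∀ g' j', g' ≠ 0 → j < j' → (g', j') ∈ D) → (g1, 3) ∈ D →
    W1 tV SS ∅ (Sum.inr '' D) := by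
  intro n
  induction n with
  | zero =>
    intro D hn hD _ _
    rw [Set.ncard_eq_zero (Set.toFinite _)] at hn
    refine play_final wm_M _ _ (Set.preimage_empty) ?_ ?_
    · rw [Set.eq_empty_iff_forall_notMem]
      rintro i ⟨⟨g, j⟩, hp, he⟩
      exact hD _ hp (emb_inr he.symm).1
    · intro g j hg
      refine ⟨(g, j), ?_, rfl⟩
      by_contra hc
      have : (g, j) ∈ ({p | p.1 ≠ 0} \ D : Set (Fin 120 × Fin 4)) := ⟨hg, hc⟩
      rw [hn] at this
      exact this
  | succ n ih =>
    intro D hn hD hUC h1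
    have hne : ({p | p.1 ≠ 0} \ D).Nonempty := by
      rw [← Set.ncard_pos (Set.toFinite _)]; omega
    obtain ⟨⟨g, j⟩, ⟨hg, hgD⟩, hmax⟩ :=
      Set.exists_max_image ({p | p.1 ≠ 0} \ D) (fun p : Fin 120 × Fin 4 => p.2)
        (Set.toFinite _) hne
    have hup : ∀ g' j', g' ≠ 0 → j < j' → (g', j') ∈ D := by
      intro g' j' hg' hjj
      by_contra hc
      exact absurd (hmax (g', j') ⟨hg', hc⟩) (not_le.2 hjj)
    have hgD' : Sum.inr (g, j) ∉ (Sum.inr '' D : Set VV) := by
      rintro ⟨p, hp, he⟩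
      exact hgD (Sum.inr_injective he ▸ hp)
    refine W1.query _ _ (Sum.inr (g, j)) (Set.notMem_empty _) hgD' ?_ ?_
    · have e : (insert (Sum.inr (g, j)) ∅ : Set VV) = {Sum.inr (g, j)} := by simp
      rw [e]
      refine branch g hg j _ ?_ g1 ⟨_, h1, rfl⟩ ?_
      · ext i
        simp only [mem_preimage, mem_image, mem_ofPred_eq]
        constructor
        · rintro ⟨⟨g2, j2⟩, hp, he⟩
          obtain ⟨h2, h3⟩ := emb_inr he.symm
          subst h2
          rw [h3]
          by_contra hlt
          rcases lt_or_eq_of_le (show j2.val ≤ j.val by omega) with h4 | h4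
          · exact hgD (hUC _ _ hp _ j hg h4)
          · exact hgD ((Fin.ext h4 : j2 = j) ▸ hp)
        · intro hi
          refine ⟨(g, ⟨i.val - 13, by omega⟩), hup g _ hg ?_, ?_⟩
          · show j.val < i.val - 13
            omega
          · rw [emb_new g i (by omega)]
      · rintro j' ⟨p, hp, he⟩
        have := Sum.inr_injective he
        exact hD p hp (by rw [this])
    · have e : insert (Sum.inr (g, j)) (Sum.inr '' D : Set VV) = Sum.inr '' (insert (g, j) D) := by
        rw [Set.image_insert_eq]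
      rw [e]
      apply ih
      · have e : {p | p.1 ≠ 0} \ (insert (g, j) D) =
            ({p : Fin 120 × Fin 4 | p.1 ≠ 0} \ D) \ {(g, j)} := by
          ext y; simp only [mem_sdiff, mem_insert_iff, mem_singleton_iff]; tauto
        rw [e, Set.ncard_sdiff_singleton_of_mem
          (show (g, j) ∈ {p : Fin 120 × Fin 4 | p.1 ≠ 0} \ D from ⟨hg, hgD⟩), hn]
        rfl
      · rintro p (hp | hp)
        · rw [hp]; exact hg
        · exact hD p hp
      · rintro g2 j2 (hp | hp) g' j' hg' hjj
        · have h2 := congrArg Prod.snd hp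
          simp only at h2
          subst h2
          exact Or.inr (hup g' j' hg' hjj)
        · exact Or.inr (hUC g2 j2 hp g' j' hg' hjj)
      · exact Or.inr h1

theorem w1_a : W1 tV SS ∅ {Sum.inr (1, 3)} := by
  have := stage 1 _ {(1, 3)} rfl (fun p hp => by
    rw [Set.mem_singleton_iff] at hp; rw [hp]; decide) (by
    intro g j h g' j' _ hj
    have h2 := congrArg Prod.snd h
    simp only at h2
    subst h2
    have := j'.2
    have h3 : (3 : Fin 4).val < j'.val := hj
    simp at h3
    omega) rfl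
  rwa [Set.image_singleton] at this

theorem w1_ab : W1 tV SS {Sum.inr (1, 3)} {Sum.inr (2, 3)} := by
  refine branch 1 (by decide) 3 _ ?_ 2 rfl ?_
  · ext i
    simp only [mem_preimage, mem_singleton_iff, mem_ofPred_eq]
    constructor
    · intro h
      exact absurd (emb_inr h).1 (by decide)
    · intro h
      have := i.2
      have h3 : 13 + (3 : Fin 4).val < i.val := h
      simp at h3
      omega
  · intro j h
    have h2 : (0 : Fin 120) = 2 := congrArg Prod.fst (Sum.inr_injective h)
    exact absurd h2 (by decide)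

end Pool.Agent.H73.EV
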